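import Pool.Agent.Lib.H40B5.C
import Pool.Agent.Lib.H24A.B

/-!
# H24X, file Key: the exchange for `Cv` (cycles of length at least 5, or one cycle) in a 2-connected graph
-/

set_option autoImplicit false

namespace H24X

open Finset H98M LD H40B5

section

variable {V : Type*} [DecidableEq V]

/-- The first vertex of a walk in a set. -/
theorem first_hit {G : SimpleGraph V} (P : V → Prop) {u w : V} (p : G.Walk u w) (hp : p.IsPath) (hw : P w) :
    ∃ c, P c ∧ ∃ q : G.Walk u c, q.IsPath ∧ (∀ x ∈ q.support, x ∈ p.support) ∧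
      ∀ x ∈ q.support, P x → x = c := by
  classical
  induction p with
  | nil =>
    refine ⟨_, hw, SimpleGraph.Walk.nil, hp, fun x hx => hx, fun x hx _ => ?_⟩
    simpa using hx
  | @cons a b w h q ih =>
    by_cases ha : P a
    · refine ⟨a, ha, SimpleGraph.Walk.nil, SimpleGraph.Walk.IsPath.nil, fun x hx => ?_, fun x hx _ => ?_⟩
      · rw [SimpleGraph.Walk.support_nil, List.mem_singleton] at hx
        rw [hx]
        exact SimpleGraph.Walk.start_mem_support _
      · rw [SimpleGraph.Walk.support_nil, List.mem_singleton] at hx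
        exact hx
    · rw [SimpleGraph.Walk.cons_isPath_iff] at hp
      obtain ⟨c, hc, q', h1, h2, h3⟩ := ih hp.1 hw
      refine ⟨c, hc, SimpleGraph.Walk.cons h q', ?_, ?_, ?_⟩
      · rw [SimpleGraph.Walk.cons_isPath_iff]
        exact ⟨h1, fun h4 => hp.2 (h2 a h4)⟩
      · intro x hx
        rw [SimpleGraph.Walk.support_cons, List.mem_cons] at hx ⊢
        exact hx.imp id (h2 x)
      · intro x hx hPx
        rw [SimpleGraph.Walk.support_cons, List.mem_cons] at hx
        rcases hx with rfl | hx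
        · exact absurd hPx ha
        · exact h3 x hx hPx

variable {E F : Finset (Sym2 V)} {S : Finset V}

theorem adj_of (hE : ∀ e ∈ E, ¬ e.IsDiag) {x y : V} (hxy : s(x, y) ∈ E) :
    (SimpleGraph.fromEdgeSet (E : Set (Sym2 V))).Adj x y := by
  rw [SimpleGraph.fromEdgeSet_adj]
  exact ⟨hxy, fun e => hE _ hxy (by rw [Sym2.mk_isDiag_iff]; exact e)⟩

theorem oneF_of (h : CycOn E F S) : H47G5.OneF F := by
  refine ⟨fun v => ?_, fun T hT x hx hx0 y hy0 => ?_⟩
  · by_cases hv : v ∈ S
    · exact Or.inr (h.two v hv)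
    · exact Or.inl (h.zero v hv)
  · have hS : ∀ v, H85TF.dg F v ≠ 0 → v ∈ S := fun v hv => by
      by_contra hn
      exact hv (h.zero v hn)
    have := h.closed (T := T ∩ S) ⟨x, mem_inter.2 ⟨hx, hS x hx0⟩⟩ inter_subset_right (fun a ha b hab =>
      mem_inter.2 ⟨hT a (mem_inter.1 ha).1 b hab, h.right hab⟩)
    exact (mem_inter.1 (this (hS y hy0))).1

theorem cycOn_of_isCyc (h : H24A.IsCyc E F S) : CycOn E F S := by
  obtain ⟨h1, h2, h3, h4⟩ := h
  exact ⟨h1, fun v hv => (h3 v).1 hv, fun v hv => (h2 v).resolve_right fun h5 => hv ((h3 v).2 h5), h4⟩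

theorem oneCyc_of {A : Finset V} (h : CycOn E F S) (hA : A ⊆ S) : H47G5.OneCyc E A :=
  ⟨F, h.sub, oneF_of h, fun v hv => h.two v (hA hv)⟩

theorem cov5_of [Fintype V] {A : Finset V} (h : CycOn E F S) (hE : ∀ e ∈ E, ¬ e.IsDiag) (h5 : 5 ≤ S.card) (hA : A ⊆ S) :
    H8F.Cov5 E A := H8F.cov5_sub hA (h.cov5 hE h5)

/-- Every neighbour of `z` in `E` is `x` or `y`, and `z` has degree 2 in `F'`: both edges are in `F'`. -/
theorem both {E F' : Finset (Sym2 V)} (hF : F' ⊆ E) {z x y : V}
    (hz : ∀ k, s(z, k) ∈ E → k = x ∨ k = y) (h2 : H85TF.dg F' z = 2) : s(z, x) ∈ F' ∧ s(z, y) ∈ F' := by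
  obtain ⟨p, q, hpq, hp, hq⟩ := H40T.two_nb (E := F') (w := z) h2
  rcases hz p (hF hp) with rfl | rfl <;> rcases hz q (hF hq) with rfl | rfl
  · exact absurd rfl hpq
  · exact ⟨hp, hq⟩
  · exact ⟨hq, hp⟩
  · exact absurd rfl hpq

theorem sw {a b : V} {F : Finset (Sym2 V)} (h : s(a, b) ∈ F) : s(b, a) ∈ F := by rw [Sym2.eq_swap]; exact h

/-- In the situation of the exchange the vertex `y` of the 4-cycle `b y c z` has no further neighbour. -/
theorem nbrs {Y : Finset V} (hT : TCY E Y) (h : CycOn E F S) (hSY : S ⊆ Y)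
    (hbad : ∀ F' S', CycOn E F' S' → S ⊆ S' → 5 ≤ S'.card → False) (h4 : 4 ≤ S.card)
    {b y c z : V} (hyz : y ≠ z)
    (hby : s(b, y) ∈ F) (hyc : s(y, c) ∈ F) (hcz : s(c, z) ∈ F) (hzb : s(z, b) ∈ F)
    (hS : ∀ v ∈ S, v = b ∨ v = y ∨ v = c ∨ v = z)
    (r : (SimpleGraph.fromEdgeSet (E : Set (Sym2 V))).Walk b c) (hr : r.IsPath)
    (hrS : ∀ v ∈ r.support, v ∈ S → v = b ∨ v = c) {u : V} (hu : u ∈ r.support) (huS : u ∉ S) :
    ∀ k, s(y, k) ∈ E → k = b ∨ k = c := by
  classical
  intro k hk
  by_contra hcon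
  rw [not_or] at hcon
  obtain ⟨hkb, hkc⟩ := hcon
  have hE := hT.loop
  have ne : ∀ {a b : V}, s(a, b) ∈ E → a ≠ b := fun hab e => hE _ hab (by
    rw [Sym2.mk_isDiag_iff]; exact e)
  have hbS := h.left hby
  have hyS := h.right hby
  have hcS := h.right hyc
  have hzS := h.right hcz
  have hyb : y ≠ b := (ne (h.sub hby)).symm
  have hyc' : y ≠ c := ne (h.sub hyc)
  have hzc' : z ≠ c := (ne (h.sub hcz)).symm
  have hzb' : z ≠ b := ne (h.sub hzb)
  have hyr : y ∉ r.support := fun h1 => (hrS y h1 hyS).elim hyb hyc'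
  have hzr : z ∉ r.support := fun h1 => (hrS z h1 hzS).elim hzb' hzc'
  have hcard : ∀ S' : Finset V, S ⊆ S' → ∀ w ∈ S', w ∉ S → 5 ≤ S'.card := by
    intro S' h1 w h2 h3
    have h5 := card_le_card (insert_subset h2 h1)
    rw [card_insert_of_notMem h3] at h5
    omega
  by_cases hkz : k = z
  · subst hkz
    -- cycle z y b .. c z
    have hp : (SimpleGraph.Walk.cons (adj_of hE (sw (h.sub hby))) r).IsPath := by
      rw [SimpleGraph.Walk.cons_isPath_iff]
      exact ⟨hr, hyr⟩
    obtain ⟨F', S', g1, g2, g3⟩ := H24A.cyc_of_path (E := E) (z := k) (a := y) (c := c) hyz (Ne.symm hzc')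
      hyc' (sw hk) (sw (h.sub hcz)) _ hp (by
        intro x hx
        rw [SimpleGraph.Walk.support_cons, List.mem_cons] at hx
        rcases hx with rfl | hx
        · exact hyz
        · exact fun e => hzr (e ▸ hx))
    have g4 : ∀ x, x = y ∨ x ∈ r.support → x ∈ S' := fun x hx => g3 x (by
      rw [SimpleGraph.Walk.support_cons, List.mem_cons]; exact hx)
    have g5 : S ⊆ S' := by
      intro v hv
      rcases hS v hv with rfl | rfl | rfl | rfl
      · exact g4 _ (Or.inr r.start_mem_support)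
      · exact g4 _ (Or.inl rfl)
      · exact g4 _ (Or.inr r.end_mem_support)
      · exact g2
    exact hbad F' S' (cycOn_of_isCyc g1) g5 (hcard S' g5 u (g4 u (Or.inr hu)) huS)
  have hkS : k ∉ S := fun h1 => by
    rcases hS k h1 with h2 | h2 | h2 | h2
    · exact hkb h2
    · exact ne hk h2.symm
    · exact hkc h2
    · exact hkz h2
  have hkY : k ∈ Y := hT.sub _ hk k (by simp)
  obtain ⟨p, hp, hpY⟩ := H85TF.path_of_not_disc (hT.conn' y (hSY hyS)) (b := k) (d := c)
    (mem_erase.2 ⟨(ne hk).symm, hkY⟩) (mem_erase.2 ⟨Ne.symm hyc', hSY hcS⟩)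
  obtain ⟨e, he, q, hq, hqp, hqe⟩ := first_hit (fun x => x ∈ S ∨ x ∈ r.support) p hp (Or.inl hcS)
  have hqy : ∀ x ∈ q.support, x ≠ y := fun x hx => (mem_erase.1 (hpY x (hqp x hx))).1
  have ht : (SimpleGraph.Walk.cons (adj_of hE hk) q).IsPath := by
    rw [SimpleGraph.Walk.cons_isPath_iff]
    exact ⟨hq, fun h1 => hqy y h1 rfl⟩
  -- an extension of the cycle at an edge `y e`
  have key : ∀ e' : V, s(y, e') ∈ F → ∀ t : (SimpleGraph.fromEdgeSet (E : Set (Sym2 V))).Walk y e',
      t.IsPath → (∀ v ∈ t.support, v ∈ S → v = e' ∨ v = y) → k ∈ t.support → False := by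
    intro e' he' t ht htS hkt
    have h1 := h.repl hE (a := e') (b := y) (sw he') t ht htS hkt hkS
    exact hbad _ _ h1 subset_union_left (hcard _ subset_union_left k
      (mem_union_right _ (List.mem_toFinset.2 hkt)) hkS)
  have hkt : ∀ {w : V} (q' : (SimpleGraph.fromEdgeSet (E : Set (Sym2 V))).Walk k w),
      k ∈ (SimpleGraph.Walk.cons (adj_of hE hk) q').support := fun q' => by
    rw [SimpleGraph.Walk.support_cons, List.mem_cons]
    exact Or.inr (SimpleGraph.Walk.start_mem_support _)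
  have hcase : s(y, e) ∈ F → False := by
    intro he1
    refine key e he1 _ ht (fun v hv hvS => ?_) (hkt q)
    rw [SimpleGraph.Walk.support_cons, List.mem_cons] at hv
    rcases hv with hv | hv
    · exact Or.inr hv
    · exact Or.inl (hqe v hv (Or.inl hvS))
  by_cases heS : e ∈ S
  · rcases hS e heS with h1 | h1 | h1 | h1
    · exact hcase (h1 ▸ sw hby)
    · exact hqy e q.end_mem_support h1
    · exact hcase (h1 ▸ hyc)
    · -- cycle y k .. z c .. b y
      subst h1
      have hP : (q.append (SimpleGraph.Walk.cons (adj_of hE (sw (h.sub hcz))) r.reverse)).support =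
          q.support ++ r.reverse.support := by
        rw [SimpleGraph.Walk.support_append, SimpleGraph.Walk.support_cons, List.tail_cons]
      have hP' : (q.append (SimpleGraph.Walk.cons (adj_of hE (sw (h.sub hcz))) r.reverse)).IsPath := by
        rw [SimpleGraph.Walk.isPath_def, hP]
        refine List.Nodup.append (by rw [← SimpleGraph.Walk.isPath_def]; exact hq)
          (by rw [← SimpleGraph.Walk.isPath_def]; exact hr.reverse) ?_
        intro x hx hx'
        rw [SimpleGraph.Walk.support_reverse, List.mem_reverse] at hx'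
        have := hqe x hx (Or.inr hx')
        exact hzr (this ▸ hx')
      have hmem : ∀ x, x ∈ q.support ∨ x ∈ r.support →
          x ∈ (q.append (SimpleGraph.Walk.cons (adj_of hE (sw (h.sub hcz))) r.reverse)).support := by
        intro x hx
        rw [hP, List.mem_append, SimpleGraph.Walk.support_reverse, List.mem_reverse]
        exact hx
      obtain ⟨F', S', g1, g2, g3⟩ := H24A.cyc_of_path (E := E) (z := y) (a := k) (c := b) (ne hk).symm
        (Ne.symm hyb) hkb hk (sw (h.sub hby)) _ hP' (by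
          intro x hx
          rw [hP, List.mem_append, SimpleGraph.Walk.support_reverse, List.mem_reverse] at hx
          rcases hx with hx | hx
          · exact hqy x hx
          · exact fun e => hyr (e ▸ hx))
      have g5 : S ⊆ S' := by
        intro v hv
        rcases hS v hv with rfl | rfl | rfl | rfl
        · exact g3 _ (hmem _ (Or.inr r.start_mem_support))
        · exact g2
        · exact g3 _ (hmem _ (Or.inr r.end_mem_support))
        · exact g3 _ (hmem _ (Or.inl q.end_mem_support))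
      exact hbad F' S' (cycOn_of_isCyc g1) g5 (hcard S' g5 u (g3 u (hmem u (Or.inr hu))) huS)
  · have her : e ∈ r.support := he.resolve_left heS
    have hce : c ≠ e := fun h1 => heS (h1 ▸ hcS)
    have hcn := SimpleGraph.Walk.endpoint_notMem_support_takeUntil hr her hce
    have hsubr : ∀ x ∈ (r.takeUntil e her).support, x ∈ r.support := fun x hx =>
      r.support_takeUntil_subset_support her hx
    have hP : ((SimpleGraph.Walk.cons (adj_of hE hk) q).append (r.takeUntil e her).reverse).support =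
        y :: q.support ++ (r.takeUntil e her).reverse.support.tail := by
      rw [SimpleGraph.Walk.support_append, SimpleGraph.Walk.support_cons]
    have hr' : (r.takeUntil e her).IsPath := hr.takeUntil her
    have htl : ∀ x ∈ (r.takeUntil e her).reverse.support.tail, x ∈ r.support ∧ x ≠ e ∧ x ≠ c := by
      intro x hx
      have h1 : x ∈ (r.takeUntil e her).reverse.support := List.mem_of_mem_tail hx
      have h2 : x ∈ (r.takeUntil e her).support := by
        rw [SimpleGraph.Walk.support_reverse, List.mem_reverse] at h1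
        exact h1
      refine ⟨hsubr x h2, ?_, fun h3 => hcn (h3 ▸ h2)⟩
      rintro rfl
      have h3 := hr'.reverse
      rw [SimpleGraph.Walk.isPath_def, ← SimpleGraph.Walk.cons_tail_support, List.nodup_cons] at h3
      exact h3.1 hx
    have hP' : ((SimpleGraph.Walk.cons (adj_of hE hk) q).append (r.takeUntil e her).reverse).IsPath := by
      rw [SimpleGraph.Walk.isPath_def, hP]
      refine List.Nodup.append ?_ ?_ ?_
      · have := ht
        rw [SimpleGraph.Walk.isPath_def, SimpleGraph.Walk.support_cons] at this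
        exact this
      · have := hr'.reverse
        rw [SimpleGraph.Walk.isPath_def] at this
        exact this.tail
      · intro x hx hx'
        obtain ⟨a1, a2, a3⟩ := htl x hx'
        rcases List.mem_cons.1 hx with rfl | hx
        · exact hyr a1
        · exact a2 (hqe x hx (Or.inr a1))
    refine key b (sw hby) _ hP' (fun v hv hvS => ?_) ?_
    · rw [hP] at hv
      rcases List.mem_append.1 hv with hv | hv
      · rcases List.mem_cons.1 hv with hv | hv
        · exact Or.inr hv
        · have := hqe v hv (Or.inl hvS)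
          exact absurd hvS (this ▸ heS)
      · obtain ⟨a1, a2, a3⟩ := htl v hv
        exact Or.inl ((hrS v a1 hvS).resolve_right a3)
    · rw [hP, List.mem_append]
      exact Or.inl (List.mem_cons_of_mem _ q.start_mem_support)

/-- The core of the exchange. -/
theorem keyX [Fintype V] {Y A : Finset V} (hT : TCY E Y) (h : CycOn E F S) (hSY : S ⊆ Y) (h4 : S.card ≤ 4)
    (hA : A ⊆ S) {b d u : V} (hb : b ∈ S) (hd : d ∉ S) (huS : u ∉ S) (hbu : s(b, u) ∈ E)
    (hn : ¬ H8F.Cov5 E (insert b A)) (hc : H47G5.Cv E (insert d A)) : H47G5.OneCyc E (insert u (insert b A)) := by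
  classical
  have hE := hT.loop
  have ne : ∀ {a b : V}, s(a, b) ∈ E → a ≠ b := fun hab e => hE _ hab (by
    rw [Sym2.mk_isDiag_iff]; exact e)
  obtain ⟨y, z, hyz, hby, hbz⟩ := H40T.two_nb (E := F) (w := b) (h.two b hb)
  have hyb : y ≠ b := (ne (h.sub hby)).symm
  have hzb : z ≠ b := (ne (h.sub hbz)).symm
  have hyS := h.right hby
  have hzS := h.right hbz
  obtain ⟨p, hp, hpY⟩ := H85TF.path_of_not_disc (hT.conn' b (hSY hb)) (b := u) (d := y)
    (mem_erase.2 ⟨(ne hbu).symm, hT.sub _ hbu u (by simp)⟩) (mem_erase.2 ⟨hyb, hSY hyS⟩)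
  obtain ⟨c, hcS, q, hq, hqp, hqc⟩ := first_hit (fun x => x ∈ S) p hp hyS
  have hqb : ∀ x ∈ q.support, x ≠ b := fun x hx => (mem_erase.1 (hpY x (hqp x hx))).1
  have hcb : c ≠ b := hqb c q.end_mem_support
  have hr : (SimpleGraph.Walk.cons (adj_of hE hbu) q).IsPath := by
    rw [SimpleGraph.Walk.cons_isPath_iff]
    exact ⟨hq, fun h1 => hqb b h1 rfl⟩
  have hrS : ∀ v ∈ (SimpleGraph.Walk.cons (adj_of hE hbu) q).support, v ∈ S → v = b ∨ v = c := by
    intro v hv hvS
    rw [SimpleGraph.Walk.support_cons, List.mem_cons] at hv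
    rcases hv with hv | hv
    · exact Or.inl hv
    · exact Or.inr (hqc v hv hvS)
  have hur : u ∈ (SimpleGraph.Walk.cons (adj_of hE hbu) q).support := by
    rw [SimpleGraph.Walk.support_cons, List.mem_cons]
    exact Or.inr q.start_mem_support
  have hbr := (SimpleGraph.Walk.cons (adj_of hE hbu) q).start_mem_support
  have hcr := (SimpleGraph.Walk.cons (adj_of hE hbu) q).end_mem_support
  generalize (SimpleGraph.Walk.cons (adj_of hE hbu) q) = r at hr hrS hur hbr hcr
  by_cases hbc : s(b, c) ∈ F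
  · have h1 := h.repl hE (a := c) (b := b) (sw hbc) r hr (fun v hv hvS => (hrS v hv hvS).symm) hur huS
    refine oneCyc_of h1 (insert_subset ?_ (insert_subset ?_ ?_))
    · exact mem_union_right _ (List.mem_toFinset.2 hur)
    · exact mem_union_left _ hb
    · exact hA.trans subset_union_left
  have hcy : c ≠ y := fun e => hbc (e ▸ hby)
  have hcz : c ≠ z := fun e => hbc (e ▸ hbz)
  have hsub4 : ({b, y, c, z} : Finset V) ⊆ S := by
    intro v hv
    simp only [mem_insert, mem_singleton] at hv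
    rcases hv with rfl | rfl | rfl | rfl
    · exact hb
    · exact hyS
    · exact hcS
    · exact hzS
  have hcard4 : ({b, y, c, z} : Finset V).card = 4 := by
    rw [card_insert_of_notMem, card_insert_of_notMem, card_insert_of_notMem, card_singleton]
    · simpa using hcz
    · simpa using ⟨hcy.symm, hyz⟩
    · simpa using ⟨hyb.symm, hcb.symm, hzb.symm⟩
  have hSeq : ({b, y, c, z} : Finset V) = S := eq_of_subset_of_card_le hsub4 (by omega)
  have hS : ∀ v ∈ S, v = b ∨ v = y ∨ v = c ∨ v = z := by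
    intro v hv
    rw [← hSeq] at hv
    simpa using hv
  have hS' : ∀ v ∈ S, v = b ∨ v = z ∨ v = c ∨ v = y := by
    intro v hv
    rcases hS v hv with h1 | h1 | h1 | h1
    · exact Or.inl h1
    · exact Or.inr (Or.inr (Or.inr h1))
    · exact Or.inr (Or.inr (Or.inl h1))
    · exact Or.inr (Or.inl h1)
  have hcnb : s(c, y) ∈ F ∧ s(c, z) ∈ F := by
    obtain ⟨m1, m2, hm, hm1, hm2⟩ := H40T.two_nb (E := F) (w := c) (h.two c hcS)
    have aux : ∀ m, s(c, m) ∈ F → m = y ∨ m = z := by
      intro m hm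
      rcases hS m (h.right hm) with h1 | h1 | h1 | h1
      · exact absurd (sw (h1 ▸ hm)) hbc
      · exact Or.inl h1
      · exact absurd h1.symm (ne (h.sub hm))
      · exact Or.inr h1
    rcases aux m1 hm1 with h1 | h1 <;> rcases aux m2 hm2 with h2 | h2
    · exact absurd (h1.trans h2.symm) hm
    · exact ⟨h1 ▸ hm1, h2 ▸ hm2⟩
    · exact ⟨h2 ▸ hm2, h1 ▸ hm1⟩
    · exact absurd (h1.trans h2.symm) hm
  obtain ⟨hcyF, hczF⟩ := hcnb
  have hbad : ∀ F' S', CycOn E F' S' → S ⊆ S' → 5 ≤ S'.card → False := fun F' S' g1 g2 g3 =>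
    hn (cov5_of g1 hE g3 (insert_subset (g2 hb) (hA.trans g2)))
  have hc4 : 4 ≤ S.card := by rw [← hSeq, hcard4]
  have hny := nbrs hT h hSY hbad hc4 hyz hby (sw hcyF) hczF (sw hbz) hS r hr hrS hur huS
  have hnz := nbrs hT h hSY hbad hc4 hyz.symm hbz (sw hczF) hcyF (sw hby) hS' r hr hrS hur huS
  have half : ∀ w w' : V, w ≠ w' → w' ≠ b → w' ≠ c → s(w', b) ∈ F → s(w', c) ∈ F → w' ∈ S →
      (∀ v ∈ S, v = b ∨ v = w ∨ v = c ∨ v = w') → w ∉ A → H47G5.OneCyc E (insert u (insert b A)) := by
    intro w w' h1 h2 h3 h5 h6 h7 h8 h9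
    obtain ⟨F', S', g1, g2, g3⟩ := H24A.cyc_of_path (E := E) (z := w') (a := b) (c := c) h2.symm h3.symm
      hcb.symm (h.sub h5) (h.sub h6) r hr (fun x hx e => by
        subst e
        rcases hrS x hx h7 with h10 | h10
        · exact h2 h10
        · exact h3 h10)
    refine oneCyc_of (cycOn_of_isCyc g1) (insert_subset (g3 u hur) (insert_subset (g3 b hbr) ?_))
    intro v hv
    rcases h8 v (hA hv) with h10 | h10 | h10 | h10
    · exact h10 ▸ g3 b hbr
    · exact absurd (h10 ▸ hv) h9
    · exact h10 ▸ g3 c hcr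
    · exact h10 ▸ g2
  by_cases hyA : y ∈ A
  swap
  · exact half y z hyz hzb hcz.symm (sw hbz) (sw hczF) hzS hS hyA
  by_cases hzA : z ∈ A
  swap
  · exact half z y hyz.symm hyb hcy.symm (sw hby) (sw hcyF) hyS hS' hzA
  exfalso
  rcases hc with ⟨F', g1, g2, g3, g4, g5⟩ | ⟨F', g1, g2, g5⟩
  · obtain ⟨k1, k2⟩ := both g1 hny (g5 y (mem_insert_of_mem hyA))
    obtain ⟨k3, k4⟩ := both g1 hnz (g5 z (mem_insert_of_mem hzA))
    exact g4 b y c z hcb.symm hyz (sw k1) k2 (sw k4) k3
  · obtain ⟨k1, k2⟩ := both g1 hny (g5 y (mem_insert_of_mem hyA))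
    obtain ⟨k3, k4⟩ := both g1 hnz (g5 z (mem_insert_of_mem hzA))
    have hpos : ∀ {v w : V}, s(v, w) ∈ F' → H85TF.dg F' v ≠ 0 := fun hvw => (H85TF.dg_pos hvw).ne'
    have hT' : ∀ a ∈ ({b, y, c, z} : Finset V), ∀ v, s(a, v) ∈ F' → v ∈ ({b, y, c, z} : Finset V) := by
      intro a ha v hv
      simp only [mem_insert, mem_singleton] at ha ⊢
      rcases ha with ha | ha | ha | ha
      · subst ha
        rcases nb_two ((g2.1 a).resolve_left (hpos hv)) (sw k1) (sw k3) hyz hv with h1 | h1
        · exact Or.inr (Or.inl h1)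
        · exact Or.inr (Or.inr (Or.inr h1))
      · subst ha
        rcases hny v (g1 hv) with h1 | h1
        · exact Or.inl h1
        · exact Or.inr (Or.inr (Or.inl h1))
      · subst ha
        rcases nb_two ((g2.1 a).resolve_left (hpos hv)) (sw k2) (sw k4) hyz hv with h1 | h1
        · exact Or.inr (Or.inl h1)
        · exact Or.inr (Or.inr (Or.inr h1))
      · subst ha
        rcases hnz v (g1 hv) with h1 | h1
        · exact Or.inl h1
        · exact Or.inr (Or.inr (Or.inl h1))
    have := g2.2 _ hT' y (by simp) (hpos k1) d (by rw [g5 d (mem_insert_self _ _)]; decide)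
    exact hd (hsub4 this)

/-- One half of the exchange: `A + b` is not covered by cycles of length at least 5. -/
theorem half [Fintype V] {E : Finset (Sym2 V)} {Y A U : Finset V} {b d : V} (hT : TCY E Y)
    (hb : H47G5.Cv E (insert b A)) (hd : H47G5.Cv E (insert d A)) (hbU : b ∈ U) (hdU : d ∈ U)
    (hU : ¬ Disc U E) (hin : ∀ u ∈ U, u ≠ b → u ≠ d → ¬ H47G5.Cv E (insert u A))
    (hn : ¬ H8F.Cov5 E (insert b A)) : H47G5.Cv E (insert b (insert d A)) := by
  classical
  obtain ⟨F, hF, h1, hA⟩ := hb.resolve_left hn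
  have h := cycOn_of_oneF hF h1
  obtain ⟨S, hS⟩ : ∃ S, S = (univ.filter fun v => H85TF.dg F v = 2) := ⟨_, rfl⟩
  rw [← hS] at h
  have hmem : ∀ v, v ∈ S ↔ H85TF.dg F v = 2 := fun v => by rw [hS, mem_filter]; simp
  have hbS : b ∈ S := (hmem b).2 (hA b (mem_insert_self _ _))
  have hAS : A ⊆ S := fun v hv => (hmem v).2 (hA v (mem_insert_of_mem hv))
  by_cases hdS : d ∈ S
  · exact Or.inr (oneCyc_of h (insert_subset hbS (insert_subset hdS hAS)))
  have h4 : S.card ≤ 4 := by
    by_contra hlt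
    exact hn (cov5_of h hT.loop (by omega) (insert_subset hbS hAS))
  have hSY : S ⊆ Y := by
    intro v hv
    obtain ⟨x, y, -, hx, -⟩ := H40T.two_nb (E := F) (w := v) ((hmem v).1 hv)
    exact hT.sub _ (hF hx) v (Sym2.mem_mk_left _ _)
  have hbd : b ≠ d := fun e => hdS (e ▸ hbS)
  obtain ⟨u, huU, hub, hbu⟩ : ∃ u ∈ U, u ≠ b ∧ s(b, u) ∈ E := by
    by_contra hcon
    push Not at hcon
    refine hU ⟨{b}, U.erase b, singleton_nonempty b, ⟨d, mem_erase.2 ⟨hbd.symm, hdU⟩⟩, ?_, ?_, ?_⟩
    · simp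
    · rw [← insert_eq, insert_erase hbU]
    · intro x hx y hy
      rw [mem_singleton.1 hx]
      exact hcon y (mem_erase.1 hy).2 (mem_erase.1 hy).1
  have huS : u ∉ S := by
    intro huS
    have hud : u ≠ d := fun e => hdS (e ▸ huS)
    exact hin u huU hub hud (Or.inr (oneCyc_of h (insert_subset huS hAS)))
  have hk := keyX hT h hSY h4 hAS hbS hdS huS hbu hn hd
  by_cases hud : u = d
  · subst hud
    rw [insert_comm] at hk
    exact Or.inr hk
  · refine absurd (Or.inr (H47G5.oneCyc_sub ?_ hk)) (hin u huU hub hud)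
    exact insert_subset_insert _ (subset_insert _ _)

/-- THE EXCHANGE for `Cv` in a 2-connected graph. -/
theorem exch [Fintype V] {E : Finset (Sym2 V)} {Y A U : Finset V} {b d : V} (hT : TCY E Y)
    (hb : H47G5.Cv E (insert b A)) (hd : H47G5.Cv E (insert d A)) (hbU : b ∈ U) (hdU : d ∈ U)
    (hU : ¬ Disc U E) (hin : ∀ u ∈ U, u ≠ b → u ≠ d → ¬ H47G5.Cv E (insert u A)) :
    H47G5.Cv E (insert b (insert d A)) := by
  by_cases h1 : H8F.Cov5 E (insert b A)
  · by_cases h2 : H8F.Cov5 E (insert d A)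
    · exact Or.inl (H9TP.exch5_set hT.loop h1 h2 hbU hdU hU fun u hu h3 h4 h5 => hin u hu h3 h4 (Or.inl h5))
    · rw [insert_comm]
      exact half hT hd hb hdU hbU hU (fun u hu h3 h4 => hin u hu h4 h3) h2
  · exact half hT hb hd hbU hdU hU hin h1

end

end H24X
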